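import Pool.Agent.U503.EA.Stm

set_option autoImplicit false

/-! Project EA, package NUM: numerical facts (helper678). -/

namespace Pool.Agent.U678.EA

open Pool.Agent.U503.EA

theorem N1 {q : ℕ} (hq : 4 ≤ q) : ∀ v : ℕ, 1 ≤ v → 4 * (v * q * v) + (q + 1) ≤ (q + 1) ^ (v + 1) := by
  intro v hv
  induction v, hv using Nat.le_induction with
  | base =>
    have e := Nat.mul_le_mul_right q hq
    have e2 : (q + 1) ^ (1 + 1) = q * q + 2 * q + 1 := by ring
    rw [e2]
    omega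
  | succ v hv ih =>
    have h1 : (v + 1) * q * (v + 1) ≤ 4 * (v * q * v) := by
      have h2 : (v + 1) * (v + 1) ≤ 4 * (v * v) := by nlinarith
      calc (v + 1) * q * (v + 1) = ((v + 1) * (v + 1)) * q := by ring
        _ ≤ (4 * (v * v)) * q := Nat.mul_le_mul_right _ h2
        _ = 4 * (v * q * v) := by ring
    calc 4 * ((v + 1) * q * (v + 1)) + (q + 1) ≤ 4 * (4 * (v * q * v) + (q + 1)) := by omega
      _ ≤ (q + 1) * (q + 1) ^ (v + 1) := Nat.mul_le_mul (by omega) ih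
      _ = (q + 1) ^ (v + 1 + 1) := by ring

theorem N2 {q : ℕ} (hq : 4 ≤ q) : ∀ v : ℕ, 1 ≤ v →
    2 * (v * q * v) + 2 * (v + 2) + 2 * (q + 1) ^ v ≤ (q + 1) ^ (v + 1) + 1 := by
  intro v hv
  induction v, hv using Nat.le_induction with
  | base =>
    have e := Nat.mul_le_mul_right q hq
    have e2 : (q + 1) ^ (1 + 1) = q * q + 2 * q + 1 := by ring
    rw [e2, pow_one]
    omega
  | succ v hv ih =>
    have h1 : (v + 1) * q * (v + 1) ≤ 4 * (v * q * v) := by
      have h2 : (v + 1) * (v + 1) ≤ 4 * (v * v) := by nlinarith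
      calc (v + 1) * q * (v + 1) = ((v + 1) * (v + 1)) * q := by ring
        _ ≤ (4 * (v * v)) * q := Nat.mul_le_mul_right _ h2
        _ = 4 * (v * q * v) := by ring
    have h3 := Nat.mul_le_mul_left (q + 1) ih
    have h4 : (q + 1) * ((q + 1) ^ (v + 1) + 1) = (q + 1) ^ (v + 1 + 1) + (q + 1) := by ring
    have h5 : (q + 1) * (2 * (v * q * v) + 2 * (v + 2) + 2 * (q + 1) ^ v) =
        (q + 1) * (2 * (v * q * v)) + (q + 1) * (2 * (v + 2)) + 2 * (q + 1) ^ (v + 1) := by ring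
    rw [h4, h5] at h3
    have h6 : 4 * (2 * (v * q * v)) ≤ (q + 1) * (2 * (v * q * v)) :=
      Nat.mul_le_mul_right _ (by omega)
    have h7 : 2 * (v + 1 + 2) + q ≤ (q + 1) * (2 * (v + 2)) := by nlinarith
    omega

theorem t_NUM : S_NUM := by
  intro p w k b x hp hx hxw hb h1 h2
  obtain ⟨v, rfl⟩ : ∃ v, w = v + 1 := ⟨w - 1, by omega⟩
  obtain ⟨q, rfl⟩ : ∃ q, p = q + 1 := ⟨p - 1, by omega⟩
  obtain ⟨d, hd⟩ : ∃ d, v = x + d := ⟨v - x, by omega⟩
  rw [Nat.add_sub_cancel, Nat.add_sub_cancel] at h2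
  rw [Nat.add_sub_cancel]
  have hv1 : 1 ≤ v := by omega
  have hq : 4 ≤ q := by omega
  have hN1 := N1 hq v hv1
  have hN2 := N2 hq v hv1
  have hs : v + 2 ≤ v * q := by nlinarith
  have hds : d * (v + 2) ≤ d * (v * q) := Nat.mul_le_mul_left d hs
  have e1 : (d + 1) * (v + 1) = d * (v + 2) + x + 1 := by rw [hd]; ring
  have e2 : v * q * v = v * q * x + d * (v * q) := by
    have : v * q * v = v * q * (x + d) := by rw [← hd]
    rw [this]; ring
  have e3 : 2 * v * q * x = 2 * (v * q * x) := by ring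
  have e4 : (d + 1) * (v + 1 + 1) = d * (v + 2) + v + 2 := by ring
  rw [e3] at h2
  have hk : d + 2 ≤ k := by
    by_contra hcon
    have hk' : k ≤ d + 1 := by omega
    have h3 : k * (v + 1) ≤ (d + 1) * (v + 1) := Nat.mul_le_mul_right _ hk'
    omega
  obtain ⟨K, rfl⟩ : ∃ K, k = K + (d + 1) + 1 := ⟨k - (d + 1) - 1, by omega⟩
  have hbK : b = K * (v + 1) + (d + 1) * (v + 1 + 1) := by
    have e5 : (K + (d + 1) + 1) * (v + 1) = K * (v + 1) + (d + 1) * (v + 1) + (v + 1) := by ring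
    rw [e5] at hb
    have e6 : (d + 1) * (v + 1 + 1) = (d + 1) * (v + 1) + (d + 1) := by ring
    omega
  have hK1 : (q + 1) ^ v ≤ K * (v + 1) := by omega
  have hK2 : v + 1 ≤ K := by
    have h3 := Pool.Agent.U503.VS.sq_le_pow hp (v + 1) (by omega)
    have h4 : (v + 1) ^ 2 * (q + 1) ≤ (q + 1) ^ v * (q + 1) := by
      rw [← pow_succ]
      exact h3
    have h5 : (v + 1) ^ 2 ≤ (q + 1) ^ v := Nat.le_of_mul_le_mul_right h4 (by omega)
    have h6 : (v + 1) * (v + 1) ≤ K * (v + 1) := by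
      rw [← sq]
      exact h5.trans hK1
    exact Nat.le_of_mul_le_mul_right h6 (by omega)
  refine ⟨d + 1, K, by omega, rfl, hbK, hK1, hK2, ?_⟩
  rw [Nat.add_sub_cancel]
  have e7 : d * (v + 1 + 1) = d * (v + 2) := by ring
  rw [e7]
  omega

end Pool.Agent.U678.EA
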